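import Pool.Agent.H29.R2.Targets
import Pool.Agent.H84.RC.RCF
import Pool.Agent.H92.RQ.URX

/-!
# MP_347b49_nt, board r2_modules, module RCX: reciprocity for nontrivial characters
-/

set_option autoImplicit false

open NumberField Complex Filter Topology

namespace Pool.Agent.H47.R2

open Pool.Agent.H29.R2 Pool.Agent.H28.RC Pool.Agent.H25.HK Pool.Agent.H25 Pool.Agent.H29.RT
  Pool.Agent.H29.RS
open Pool.Agent.H84.RC (rs_mem)

theorem ur_of_le {F Ω : Type} [Field F] [NumberField F] [Field Ω] [NumberField Ω] [Algebra F Ω]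
    {m m' : Ideal (𝓞 F)} (h : UR Ω m) (hle : m' ≤ m) : UR Ω m' := by
  intro Q hQ hQ0 hQm
  refine h Q hQ hQ0 ?_
  rw [eq_top_iff, ← hQm]
  exact sup_le_sup_left hle _

theorem pf_RCX (h1 : T_RC1) (h2 : T_RC2) (h3 : T_SUR) (h4 : T_FRE) : T_RCX := by
  classical
  intro R H lam hlam
  let μ : (R.K ≃ₐ[IntermediateField.fixedField H] R.K) →* ℂˣ :=
    { toFun := fun h => lam ⟨h.restrictScalars ℚ, rs_mem H h⟩
      map_one' := by
        have e : (⟨(1 : R.K ≃ₐ[IntermediateField.fixedField H] R.K).restrictScalars ℚ,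
          rs_mem H 1⟩ : H) = 1 := Subtype.ext (AlgEquiv.ext fun _ => rfl)
        rw [e, map_one]
      map_mul' := fun g h => by
        have e : (⟨(g * h).restrictScalars ℚ, rs_mem H (g * h)⟩ : H) =
            ⟨g.restrictScalars ℚ, rs_mem H g⟩ * ⟨h.restrictScalars ℚ, rs_mem H h⟩ :=
          Subtype.ext (AlgEquiv.ext fun _ => rfl)
        rw [e, map_mul] }
  have hμ : ∀ h : R.K ≃ₐ[IntermediateField.fixedField H] R.K,
      μ h = lam ⟨h.restrictScalars ℚ, rs_mem H h⟩ := fun h => rfl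
  obtain ⟨χ, B, -, hB⟩ := h1 (IntermediateField.fixedField H) R.K μ
  obtain ⟨B', hB'⟩ := h2 R.K H lam χ B (fun P hP hP0 hp h _ hF => hB P hP hP0 hp h hF)
  refine ⟨χ, B', ?_, ?_⟩
  · by_contra hcon
    push Not at hcon
    apply hlam
    -- the modulus
    obtain ⟨m0, hm0, hUR⟩ :=
      Pool.Agent.H92.RQ.pf_URX (IntermediateField.fixedField H) R.K
    obtain ⟨-, hFP, -, -⟩ := h4 (IntermediateField.fixedField H) R.K
    set n : ℕ := ∏ p ∈ B.filter Nat.Prime, p with hn
    have hn0 : n ≠ 0 := Finset.prod_ne_zero_iff.2 fun p hp => (Finset.mem_filter.1 hp).2.ne_zero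
    set J : Ideal (𝓞 (IntermediateField.fixedField H)) :=
      Ideal.span {((n : ℕ) : 𝓞 (IntermediateField.fixedField H))} with hJ
    have hJ0 : J ≠ ⊥ := by
      rw [hJ, Ne, Ideal.span_singleton_eq_bot]
      exact_mod_cast hn0
    have hmul : m0 * J ≠ ⊥ := mul_ne_zero hm0 hJ0
    have hμ1 : μ = 1 := by
      refine h3 (IntermediateField.fixedField H) R.K (m0 * J) μ hmul
        (ur_of_le hUR Ideal.mul_le_left) ?_
      intro P hPm g hg
      obtain ⟨hP, hP0⟩ := hFP P g hg
      have hPB : ∀ p : ℕ, p.Prime → p ∈ B → (p : 𝓞 (IntermediateField.fixedField H)) ∉ P := by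
        intro p hp hpB hpP
        have h5 : J ≤ P := by
          rw [hJ, Ideal.span_singleton_le_iff_mem]
          have h6 : p ∣ n := Finset.dvd_prod_of_mem _ (Finset.mem_filter.2 ⟨hpB, hp⟩)
          obtain ⟨c, hc⟩ := h6
          rw [hc, Nat.cast_mul]
          exact P.mul_mem_right _ hpP
        have h7 : m0 * J ≤ P := Ideal.mul_le_right.trans h5
        rw [sup_eq_left.2 h7] at hPm
        exact hP.ne_top hPm
      have h8 := hB P hP hP0 hPB g hg
      have h9 := hcon P (by rw [h8]; exact (μ g).ne_zero)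
      rw [h9] at h8
      exact Units.ext h8.symm
    ext ⟨h, hh⟩
    let g : R.K ≃ₐ[IntermediateField.fixedField H] R.K :=
      { (h : R.K ≃ₐ[ℚ] R.K).toRingEquiv with
        commutes' := fun x => (IntermediateField.mem_fixedField_iff H _).1 x.2 h hh }
    have e1 : μ g = 1 := by rw [hμ1]; rfl
    have e2 : (⟨g.restrictScalars ℚ, rs_mem H g⟩ : H) = ⟨h, hh⟩ :=
      Subtype.ext (AlgEquiv.ext fun _ => rfl)
    rw [hμ, e2] at e1
    rw [e1]
    rfl
  · intro p hp k hk
    have h5 := hB' p p.2 hp (R.P p) (R.P_prime p) (R.P_mem p) (R.Fr p) (R.Fr_spec p) k hk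
    unfold sp
    rw [if_neg (by omega)]
    exact h5

end Pool.Agent.H47.R2
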