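import Pool.Agent.H29.R2.Targets

/-!
# MP_347b49_nt, board r2_modules, module MIN: the mean of an induced character
-/

set_option autoImplicit false

open NumberField Complex Filter Topology

namespace Pool.Agent.H47.R2

open Pool.Agent.H29.R2 Pool.Agent.H28.RC Pool.Agent.H25.HK Pool.Agent.H25 Pool.Agent.H29.RT
  Pool.Agent.H29.RS

open scoped Classical in
theorem pf_MIN (h1 : T_LNV) (h2 : T_CNZ) (h3 : T_RCT) (h4 : T_ELO) (h5 : T_LIM) (h6 : T_MLI) :
    T_MIN := by
  intro R H lam w C B hw hB t s hs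
  -- the general step
  have key : ∀ (χ : RCC (IntermediateField.fixedField H)) (B' : Finset ℕ) (G : ℂ → ℂ) (k : ℕ),
      (∀ p : Nat.Primes, (p : ℕ) ∉ B' → ∀ k : ℕ, 1 ≤ k → sp χ p k = indc H lam (R.Fr p ^ k)) →
      ContinuousAt G (1 + t * I) → G (1 + t * I) ≠ 0 →
      (∀ z : ℂ, 1 < z.re → G z = (z - (1 + t * I)) ^ k * Lc χ z) →
      Tendsto (fun L : ℝ => ∑' p : Nat.Primes, w p * ((p : ℕ) : ℂ) ^ (-(t * I) : ℂ) *
        ((((p : ℕ) : ℝ) ^ (-(1 + s / L) : ℝ) - ((p : ℕ) : ℝ) ^ (-(1 + 1 / L) : ℝ) : ℝ) : ℂ)) atTop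
      (𝓝 (-(k * (Real.log s : ℂ)))) := by
    intro χ B' G k hsp hGc hG0 hGL
    obtain ⟨hb, hL⟩ := h4 _ χ
    obtain ⟨l, hl⟩ := h5 (sp χ) (Module.finrank ℚ (IntermediateField.fixedField H)) hb G t k hGc hG0
      (fun z hz => by rw [hGL z hz, hL z hz])
    refine h6 (sp χ) w (max C (Module.finrank ℚ (IntermediateField.fixedField H))) (B ∪ B')
      (fun p k => (hb p k).trans (le_max_right _ _)) (fun p => (hw p).trans (le_max_left _ _))
      (fun p hp => ?_) t k l hl s hs
    rw [Finset.notMem_union] at hp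
    rw [hB p hp.1, hsp p hp.2 1 le_rfl, pow_one]
  by_cases hlam : lam = 1
  · subst hlam
    obtain ⟨B', hB'⟩ := h3 R H
    obtain ⟨H0, hd, hL, hnz⟩ := h2 (IntermediateField.fixedField H)
    have hre : (0 : ℝ) < (1 + (t : ℂ) * I).re := by simp
    by_cases ht : t = 0
    · subst ht
      have h := key (triv _) B' H0 1 hB' (hd _ hre).continuousAt (hnz 0)
        (fun z hz => by rw [hL z hz, pow_one]; simp)
      simpa using h
    · have hne : (1 + (t : ℂ) * I) - 1 ≠ 0 := by
        rw [add_sub_cancel_left]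
        exact mul_ne_zero (by exact_mod_cast ht) I_ne_zero
      have h := key (triv _) B' (fun z => H0 z / (z - 1)) 0 hB'
        ((hd _ hre).continuousAt.div (continuousAt_id.sub continuousAt_const) hne)
        (div_ne_zero (hnz t) hne)
        (fun z hz => by
          have hz1 : z - 1 ≠ 0 := by
            intro h0
            have : z = 1 := sub_eq_zero.1 h0
            rw [this, one_re] at hz
            exact lt_irrefl _ hz
          simp only [hL z hz, pow_zero, one_mul]
          field_simp)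
      simpa [ht] using h
  · obtain ⟨χ, B', G, hsp, hGd, hGL, hG0⟩ := h1 R H lam hlam
    have hre : (0 : ℝ) < (1 + (t : ℂ) * I).re := by simp
    have h := key χ B' G 0 hsp (hGd _ hre).continuousAt (hG0 t)
      (fun z hz => by rw [hGL z hz, pow_zero, one_mul])
    simpa [hlam] using h

end Pool.Agent.H47.R2
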